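import Mathlib
import Pool.Agent.H906R3.YM.Conc
import Pool.Agent.W793.YM.Inf
import Pool.Agent.TH618.YM.Cartan
import Pool.Agent.R990.Lim4
import Pool.Agent.W2helper10.ConcaveScale

/-!
# Lattice Yang-Mills theory in dimension `d ≥ 4`: continuum limits of the static potential

Wilson's lattice gauge theory in dimension `d ≥ 4` with gauge group a closed subgroup `G` of `U(N)`
at the inverse coupling `β`, in the infinite volume, and its static potential `V`. The effective
coupling at the distance `R` is `R ^ 2 (V(R+1) - V(R))`; the scale of the theory (Sommer's scale) is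
the least distance `r ≥ 1` at which the effective coupling is at least `c`, for a fixed `c > 0`.
Along every sequence of theories whose 't Hooft coupling `N / β` tends to zero the effective coupling
at every fixed distance tends to zero and the scale tends to infinity. Either the scale is infinite,
and then the potential is bounded by Coulomb's at all distances and does not confine, or, along a
subsequence, the potential in the units of the scale, `r (V(⌊x r⌋) - V(r))`, tends to a nontrivial
continuum potential `v(x)`, locally uniformly in `x > 0`.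
-/

open MeasureTheory Matrix Filter
open scoped Matrix.Norms.Frobenius Topology ContDiff

namespace Pool.Agent.W2helper10.Old.PotentialContinuumLimit

set_option linter.unusedSectionVars false

noncomputable section

/-- Complex `N × N` matrices. -/
abbrev Mt (N : ℕ) := Matrix (Fin N) (Fin N) ℂ

/-- The unitary group `U(N)`. -/
abbrev UU (N : ℕ) := Matrix.unitaryGroup (Fin N) ℂ

/-- The matrix of an element of a subgroup of `U(N)`. -/
def mt {N : ℕ} {G : Subgroup (UU N)} (g : G) : Mt N := ((g : UU N) : Mt N)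

/-- Links of the periodic lattice `(ℤ/l)^d`: base point and direction. -/
abbrev Link (d l : ℕ) := (Fin d → ZMod l) × Fin d

/-- Links of the lattice `ℤ^d`: base point and direction. -/
abbrev LinkZ (d : ℕ) := (Fin d → ℤ) × Fin d

section

variable {N n d l : ℕ} {G : Subgroup (UU N)}

/-- The product of the link variables around the plaquette at `x` in the directions `i`, `j`. -/
def plaq (U : Link d l → G) (x : Fin d → ZMod l) (i j : Fin d) : G :=
  U (x, i) * U (x + Pi.single i 1, j) * (U (x + Pi.single j 1, i))⁻¹ * (U (x, j))⁻¹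

/-- The Wilson action `∑_p Re tr (1 - U_p)`, the sum over the plaquettes. -/
def action [NeZero l] (U : Link d l → G) : ℝ :=
  ∑ x : Fin d → ZMod l, ∑ i : Fin d, ∑ j : Fin d,
    if i < j then (trace (1 - mt (plaq U x i j))).re else 0

/-- The periodic extension of a configuration. -/
def per (U : Link d l → G) : LinkZ d → G := fun e => U (fun i => (e.1 i : ZMod l), e.2)

/-- The expectation of `F` in the lattice Yang-Mills theory on `(ℤ/l)^d`, `μ` being the Haar
measure. -/
def expect (l : ℕ) [NeZero l] [MeasurableSpace G] (μ : Measure G) (β : ℝ)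
    (F : (LinkZ d → G) → ℝ) : ℝ :=
  (∫ U : Link d l → G, F (per U) * Real.exp (-(β * action U)) ∂(Measure.pi fun _ => μ)) /
    ∫ U : Link d l → G, Real.exp (-(β * action U)) ∂(Measure.pi fun _ => μ)

/-- `ν` is an infinite volume limit (weak limit along a subsequence) of the theories on the tori of
even side at inverse coupling `β`. -/
structure IsInfVol [MeasurableSpace G] (μ : Measure G) (β : ℝ)
    (ν : Measure (LinkZ d → G)) : Prop where
  prob : IsProbabilityMeasure ν
  lim : ∃ s : ℕ → ℕ, Tendsto s atTop atTop ∧ ∀ F : (LinkZ d → G) → ℝ, Continuous F →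
    Tendsto (fun j => expect (2 * (s j + 1)) μ β F) atTop (𝓝 (∫ V, F V ∂ν))

/-- The product of the link variables along the path of `k` steps in the direction `i` from `x`. -/
def line (V : LinkZ d → G) (i : Fin d) : ℕ → (Fin d → ℤ) → G
  | 0, _ => 1
  | k + 1, x => V (x, i) * line V i k (x + Pi.single i 1)

/-- The product of the link variables around the rectangle with corner `x` and with the sides `R`
in the direction `i` and `T` in the direction `j`. -/
def loop (V : LinkZ d → G) (x : Fin d → ℤ) (i j : Fin d) (R T : ℕ) : G :=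
  line V i R x * line V j T (x + Pi.single i (R : ℤ)) *
    (line V i R (x + Pi.single j (T : ℤ)))⁻¹ * (line V j T x)⁻¹

/-- The Wilson loop: the expectation of `(1/N) Re tr` of the product around the rectangle. -/
def wilson [MeasurableSpace G] (ν : Measure (LinkZ d → G)) (x : Fin d → ℤ) (i j : Fin d)
    (R T : ℕ) : ℝ := ∫ V, (trace (mt (loop V x i j R T))).re / N ∂ν


/-- `V` is the static potential: `V(R) = - lim_T (1/T) log ⟨(1/N) Re tr U(loop of sides R, T)⟩`. -/
def IsPotential [MeasurableSpace G] (ν : Measure (LinkZ d → G)) (i j : Fin d) (V : ℕ → ℝ) : Prop :=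
  ∀ (x : Fin d → ℤ) (R : ℕ),
    Tendsto (fun T : ℕ => -Real.log (wilson ν x i j R T) / T) atTop (𝓝 (V R))

/-- The effective coupling of the potential `V` at the distance `R`. -/
def coupling (V : ℕ → ℝ) (R : ℕ) : ℝ := (R : ℝ) ^ 2 * (V (R + 1) - V R)

/-- `r` is the scale of the potential `V`: the least distance `r ≥ 1` at which the effective
coupling is at least `c`. -/
def IsScale (V : ℕ → ℝ) (c : ℝ) (r : ℕ) : Prop := IsLeast {R : ℕ | 1 ≤ R ∧ c ≤ coupling V R} r

/-- The potential in the units of the length `r`, at the distance `x`, normalised to `0` at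
`x = 1`. -/
def scaled (V : ℕ → ℝ) (r : ℕ) (x : ℝ) : ℝ := r * (V ⌊x * r⌋₊ - V r)

end

open Pool.Agent.H906R3 Pool.Agent.W793 Pool.Agent.TH618 Pool.Agent

variable {N n d l : ℕ} {G : Subgroup (UU N)}

/-- A Haar probability measure is invariant under right multiplications. -/
lemma right_inv {H : Type*} [Group H] [TopologicalSpace H] [IsTopologicalGroup H]
    [CompactSpace H] [MeasurableSpace H] [BorelSpace H] (μ : Measure H)
    [IsProbabilityMeasure μ] [μ.IsHaarMeasure] : μ.IsMulRightInvariant := by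
  refine ⟨fun g => ?_⟩
  have h1 : IsProbabilityMeasure (Measure.map (fun x => x * g) μ) :=
    Measure.isProbabilityMeasure_map (measurable_mul_const g).aemeasurable
  exact Measure.isHaarMeasure_eq_of_isProbabilityMeasure _ _

/-- A Haar probability measure is invariant under the inversion. -/
lemma inv_inv' {H : Type*} [Group H] [TopologicalSpace H] [IsTopologicalGroup H]
    [CompactSpace H] [MeasurableSpace H] [BorelSpace H] (μ : Measure H)
    [IsProbabilityMeasure μ] [μ.IsHaarMeasure] : μ.IsInvInvariant := by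
  have hr := right_inv μ
  refine ⟨?_⟩
  have h1 : IsProbabilityMeasure μ.inv :=
    Measure.isProbabilityMeasure_map measurable_inv.aemeasurable
  have h2 : μ.inv.IsMulLeftInvariant := inferInstance
  have h3 : μ.inv.IsHaarMeasure :=
    Measure.isHaarMeasure_of_isCompact_nonempty_interior μ.inv Set.univ isCompact_univ
      (by simp) (by simp) (by simp)
  exact Measure.isHaarMeasure_eq_of_isProbabilityMeasure _ _

lemma action_eq [NeZero l] (B : YM.Frame G n) (U : Link d l → G) :
    action U = YM.act B.toLD U := rfl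

section bridge

variable [CompactSpace G] [SecondCountableTopology G] [MeasurableSpace G] [BorelSpace G]
  (μ : Measure G) [IsProbabilityMeasure μ] [μ.IsHaarMeasure] (B : YM.Frame G n)

lemma expect_eq [NeZero l] (β : ℝ) (F : (LinkZ d → G) → ℝ) : expect l μ β F =
    YM.EX μ B.toLD β (fun U : YM.Ed d l → G => F (YM.lf U)) := by
  unfold expect YM.EX YM.Zt
  simp only [one_mul]
  rfl

include B in
lemma action_cont [NeZero l] : Continuous (action : (Link d l → G) → ℝ) :=
  YM.act_cont (L := B.toLD)

include B in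
/-- existence of infinite volume limits -/
lemma exists_infVol (β : ℝ) : ∃ ν : Measure (LinkZ d → G), IsInfVol μ β ν := by
  have hP : ∀ j : ℕ, ∃ P : ProbabilityMeasure (LinkZ d → G),
      ∀ F : (LinkZ d → G) → ℝ, Continuous F →
        ∫ V, F V ∂(P : Measure (LinkZ d → G)) = expect (2 * (j + 1)) μ β F := by
    intro j
    have hper : Continuous (per : (Link d (2 * (j + 1)) → G) → LinkZ d → G) :=
      continuous_pi fun e => continuous_apply _
    have hexp : Continuous fun U : Link d (2 * (j + 1)) → G =>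
        Real.exp (-(β * action U)) :=
      Real.continuous_exp.comp (continuous_const.mul (action_cont B)).neg
    have hint : Integrable (fun U : Link d (2 * (j + 1)) → G =>
        Real.exp (-(β * action U))) (Measure.pi fun _ => μ) :=
      hexp.integrable_of_hasCompactSupport (HasCompactSupport.of_compactSpace _)
    have h1 := isProbabilityMeasure_tilted (f := fun U : Link d (2 * (j + 1)) → G =>
      -(β * action U)) hint
    refine ⟨⟨((Measure.pi fun _ => μ).tilted fun U : Link d (2 * (j + 1)) → G =>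
      -(β * action U)).map per, Measure.isProbabilityMeasure_map hper.aemeasurable⟩,
      fun F hF => ?_⟩
    show ∫ V, F V ∂(((Measure.pi fun _ => μ).tilted fun U : Link d (2 * (j + 1)) → G =>
      -(β * action U)).map per) = _
    rw [integral_map hper.aemeasurable hF.aestronglyMeasurable, integral_tilted]
    unfold expect
    rw [← integral_div]
    refine integral_congr_ae (Filter.Eventually.of_forall fun U => ?_)
    simp only [smul_eq_mul]
    ring
  choose P hP using hP
  obtain ⟨ν, s, hs, hlim⟩ := CompactSpace.tendsto_subseq P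
  refine ⟨ν, ⟨inferInstance, s, hs.tendsto_atTop, fun F hF => ?_⟩⟩
  have h1 := (ProbabilityMeasure.tendsto_iff_forall_integral_tendsto.1 hlim)
    (BoundedContinuousFunction.mkOfCompact ⟨F, hF⟩)
  simp only [Function.comp_apply, BoundedContinuousFunction.mkOfCompact_apply,
    ContinuousMap.coe_mk] at h1
  simpa only [hP _ F hF] using h1

/-- straight lines in a periodic configuration -/
lemma line_lf (U : YM.Ed d l → G) (i : Fin d) (k : ℕ) (x : Fin d → ℤ) :
    line (YM.lf U) i k x = YM.ln U i k (YM.zt l x) := by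
  induction k generalizing x with
  | zero => rfl
  | succ k ih =>
    rw [YM.ln_succ]
    show YM.lf U (x, i) * line (YM.lf U) i k (x + Pi.single i 1) = _
    rw [ih, YM.zt_add]
    rfl

lemma zt_nsmul (x : Fin d → ℤ) (i : Fin d) (k : ℕ) :
    YM.zt l (x + Pi.single i (k : ℤ)) = YM.zt l x + k • YM.eT i := by
  funext j
  unfold YM.zt YM.eT
  by_cases h : j = i
  · subst h; simp
  · simp [h]

lemma loop_lf (U : YM.Ed d l → G) (x : Fin d → ℤ) (i j : Fin d) (R T : ℕ) :
    loop (YM.lf U) x i j R T = YM.rect U (YM.zt l x) i j R T := by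
  unfold loop YM.rect
  rw [line_lf, line_lf, line_lf, line_lf, zt_nsmul, zt_nsmul]

lemma line_cont (i : Fin d) (k : ℕ) (x : Fin d → ℤ) :
    Continuous fun V : LinkZ d → G => line V i k x := by
  induction k generalizing x with
  | zero => exact continuous_const
  | succ k ih => exact (continuous_apply _).mul (ih _)

lemma loop_cont (x : Fin d → ℤ) (i j : Fin d) (R T : ℕ) :
    Continuous fun V : LinkZ d → G => (trace (mt (loop V x i j R T))).re / N := by
  have h1 : Continuous fun V : LinkZ d → G => loop V x i j R T :=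
    (((line_cont _ _ _).mul (line_cont _ _ _)).mul (line_cont _ _ _).inv).mul (line_cont _ _ _).inv
  have h2 : Continuous (mt : G → Mt N) := continuous_subtype_val.comp continuous_subtype_val
  exact (Complex.continuous_re.comp (h2.comp h1).matrix_trace).div_const _

lemma expect_loop [NeZero l] (β : ℝ) (x : Fin d → ℤ) (i j : Fin d) (R T : ℕ) :
    expect l μ β (fun V : LinkZ d → G => (trace (mt (loop V x i j R T))).re / N) =
      YM.EX μ B.toLD β (fun U : YM.Ed d l → G => YM.rt B.toLD (YM.rect U 0 i j R T)) / N := by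
  have := right_inv μ
  have := inv_inv' μ
  rw [expect_eq μ B]
  have h1 : (fun U : YM.Ed d l → G => (trace (mt (loop (YM.lf U) x i j R T))).re / N) =
      fun U => (1 / (N : ℝ)) * YM.rt B.toLD (YM.rect (YM.tr (YM.zt l x) U) 0 i j R T) := by
    funext U
    rw [loop_lf, YM.rect_tr, zero_add, div_eq_mul_one_div, mul_comm]
    rfl
  rw [h1, YM.EX_smul, YM.EX_tr μ (YM.zt l x)
    (fun U : YM.Ed d l → G => YM.rt B.toLD (YM.rect U 0 i j R T))]
  ring

end bridge

open Pool.Agent.W2helper10.CS in
/-- the potential of a theory -/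
lemma one_theory {N d : ℕ} (hN : 1 ≤ N) (hd : 4 ≤ d) (G : Subgroup (UU N))
    (hG : IsClosed (G : Set (UU N))) [MeasurableSpace G] [BorelSpace G] (μ : Measure G)
    [IsProbabilityMeasure μ] [μ.IsHaarMeasure] {β : ℝ} (hβ : 0 < β)
    (hc : N / β ≤ (4 * 450000000 : ℝ)⁻¹) {ν : Measure (LinkZ d → G)} (hν : IsInfVol μ β ν)
    {i j : Fin d} (hij : i ≠ j) :
    ∃ (V : ℕ → ℝ) (σ : ℝ), IsPotential ν i j V ∧ Tendsto (fun R : ℕ => V R / R) atTop (𝓝 σ) ∧
      Cv V ∧ 0 ≤ σ ∧
      (∀ R : ℕ, V R ≤ 8 * 450000000 ^ 2 * (N / β) + 8 * 450000000 ^ 2 * (N / β) ^ 2 * R) := by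
  have hb3 : 4 * 450000000 * ((N : ℝ) / β) ≤ 1 := by
    have h1 := mul_le_mul_of_nonneg_left hc (show (0 : ℝ) ≤ 4 * 450000000 by positivity)
    rwa [mul_inv_cancel₀ (by positivity)] at h1
  have : CompactSpace G := by
    have h1 : IsCompact (G : Set (UU N)) := hG.isCompact
    exact isCompact_iff_compactSpace.1 h1
  have h00 : SecondCountableTopology (UU N) := TopologicalSpace.Subtype.secondCountableTopology _
  have : SecondCountableTopology G := TopologicalSpace.Subtype.secondCountableTopology _
  have := right_inv μ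
  have := inv_inv' μ
  obtain ⟨n, ⟨B⟩⟩ := YM.exists_frame hG
  obtain ⟨s, hs, hlim⟩ := hν.lim
  have hw : ∀ (x : Fin d → ℤ) (R T : ℕ),
      Tendsto (fun k => YM.wR2 μ B.toLD (s k + 1) β i j R T) atTop (𝓝 (wilson ν x i j R T)) := by
    intro x R T
    refine (hlim _ (loop_cont x i j R T)).congr fun k => ?_
    exact expect_loop μ B β x i j R T
  have hx : ∀ (x : Fin d → ℤ) (R T : ℕ), wilson ν x i j R T = wilson ν 0 i j R T := fun x R T =>
    tendsto_nhds_unique (hw x R T) (hw 0 R T)
  obtain ⟨hlow, P, σ, g1, g2, g3, g4, g5⟩ := R990.main4u μ (L := B.toLD) hd hN hβ hb3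
    hij (w := fun R T => wilson ν 0 i j R T) hs (fun R T => hw 0 R T)
  have hpw := R990.pw_lim μ (L := B.toLD) hN hβ.le hij (w := fun R T => wilson ν 0 i j R T) hs
    (fun R T => hw 0 R T)
  have hpos : ∀ R T, 0 < wilson ν 0 i j R T := fun R T => (Real.exp_pos _).trans_le (hlow R T)
  obtain ⟨k0, k0', kc, kc'⟩ := hpw.conc hpos
  refine ⟨P, σ, fun x R => ?_, g2, ⟨?_, fun R => ?_, fun R => ?_⟩, g4, g3⟩
  · simp only [hx x]
    exact g1 R
  · refine tendsto_nhds_unique (g1 0) ?_
    simp only [k0, zero_div]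
    exact tendsto_const_nhds
  · refine ge_of_tendsto' (g1 R) fun T => ?_
    have := Real.log_nonpos (hpos R T).le (hpw.le R T)
    exact div_nonneg (by linarith) (Nat.cast_nonneg _)
  · refine le_of_tendsto_of_tendsto' ((g1 R).add (g1 (R + 2))) ((g1 (R + 1)).const_mul 2)
      fun T => ?_
    rw [← add_div, ← mul_div_assoc]
    exact div_le_div_of_nonneg_right (kc R T) (Nat.cast_nonneg _)

open Pool.Agent.W2helper10.CS in
lemma scale_som {V : ℕ → ℝ} {c : ℝ} {r : ℕ} (h : IsScale V c r) : Som V c r := by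
  refine ⟨h.1.1, h.1.2, fun R hR hRr => ?_⟩
  by_contra hc
  push Not at hc
  exact absurd (h.2 ⟨hR, hc⟩) (not_le.2 hRr)

open Pool.Agent.W2helper10.CS in
/-- the string tension is at most the increments -/
lemma str_le {V : ℕ → ℝ} {σ : ℝ} (h : Cv V) (hσ : Tendsto (fun R : ℕ => V R / R) atTop (𝓝 σ))
    (R : ℕ) : σ ≤ V (R + 1) - V R := by
  have h1 : Tendsto (fun n : ℕ => (V R - R * inc V R) * ((n : ℝ))⁻¹ + inc V R) atTop
      (𝓝 ((V R - R * inc V R) * 0 + inc V R)) :=
    ((tendsto_inv_atTop_nhds_zero_nat (𝕜 := ℝ)).const_mul _).add_const _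
  rw [mul_zero, zero_add] at h1
  refine le_of_tendsto_of_tendsto hσ h1 ?_
  filter_upwards [eventually_ge_atTop (R + 1)] with n hn
  have hn0 : (0 : ℝ) < n := by
    have : 0 < n := by omega
    exact_mod_cast this
  have h2 := h.up (show R ≤ n by omega)
  rw [div_le_iff₀ hn0]
  have e : ((V R - R * inc V R) * ((n : ℝ))⁻¹ + inc V R) * n =
      V R - R * inc V R + n * inc V R := by
    field_simp
  rw [e]
  linarith

open Pool.Agent.W2helper10.CS in
theorem result :
    ∃ C₀ c₀ : ℝ, 0 < C₀ ∧ 0 < c₀ ∧ ∀ (d : ℕ), 4 ≤ d → ∀ i j : Fin d, i ≠ j →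
      ∀ (N : ℕ → ℕ) (G : ∀ k, Subgroup (UU (N k))) [∀ k, MeasurableSpace (G k)]
        [∀ k, BorelSpace (G k)] (μ : ∀ k, Measure (G k)) [∀ k, IsProbabilityMeasure (μ k)]
        [∀ k, (μ k).IsHaarMeasure] (β : ℕ → ℝ) (ν : ∀ k, Measure (LinkZ d → G k)),
      (∀ k, 1 ≤ N k ∧ IsClosed (G k : Set (UU (N k))) ∧ 0 < β k ∧ N k / β k ≤ c₀ ∧
        IsInfVol (μ k) (β k) (ν k)) →
      Tendsto (fun k => N k / β k) atTop (𝓝 0) →
      ∃ (V : ℕ → ℕ → ℝ) (σ : ℕ → ℝ),
        -- the potentials, the string tensions and the effective couplings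
        (∀ k, IsPotential (ν k) i j (V k) ∧ Monotone (V k) ∧
          (∀ R, V k R + V k (R + 2) ≤ 2 * V k (R + 1)) ∧
          Tendsto (fun R : ℕ => V k R / R) atTop (𝓝 (σ k)) ∧ 0 ≤ σ k ∧
          ∀ R : ℕ, coupling (V k) R ≤ C₀ * (N k / β k * R + (N k / β k * R) ^ 2)) ∧
        ∀ c : ℝ, 0 < c →
          -- the theories without a scale
          (∀ k, (∀ r, ¬ IsScale (V k) c r) → σ k = 0 ∧
            ∀ R R' : ℕ, 2 ≤ R → R ≤ R' → V k R' - V k R ≤ c / (R - 1)) ∧
          -- the scale
          (∀ k r, IsScale (V k) c r → c ≤ C₀ * (N k / β k * r + (N k / β k * r) ^ 2) ∧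
            σ k * (r - 1) ^ 2 ≤ c) ∧
          -- the continuum limits
          ∀ (κ r : ℕ → ℕ), StrictMono κ → (∀ m, IsScale (V (κ m)) c (r m)) →
            Tendsto r atTop atTop ∧
            ∃ (φ : ℕ → ℕ) (v : ℝ → ℝ) (s : ℝ), StrictMono φ ∧
              (∀ a b : ℝ, 0 < a → a ≤ b → TendstoUniformlyOn
                (fun m x => scaled (V (κ (φ m))) (r (φ m)) x) v atTop (Set.Icc a b)) ∧
              Tendsto (fun m => (r (φ m) : ℝ) ^ 2 * σ (κ (φ m))) atTop (𝓝 s) ∧ 0 ≤ s ∧ s ≤ c ∧
              ConcaveOn ℝ (Set.Ioi 0) v ∧ v 1 = 0 ∧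
              (∀ x y : ℝ, 0 < x → x ≤ y → s * (y - x) ≤ v y - v x) ∧
              (∀ x y : ℝ, 0 < x → x ≤ y → y ≤ 1 →
                c * (y - x) ≤ v y - v x ∧ v y - v x ≤ c * (1 / x - 1 / y)) ∧
              (∀ x y : ℝ, 1 ≤ x → x ≤ y → v y - v x ≤ c * (y - x)) := by
  refine ⟨8 * 450000000 ^ 2, (4 * 450000000)⁻¹, by positivity, by positivity, ?_⟩
  intro d hd i j hij N G _ _ μ _ _ β ν hk hlam
  have hone := fun k => one_theory (hk k).1 hd (G k) (hk k).2.1 (μ k) (hk k).2.2.1
    (hk k).2.2.2.1 (hk k).2.2.2.2 hij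
  choose V σ hV hσ hCv hσ0 hVle using hone
  have hlam0 : ∀ k, 0 ≤ (N k : ℝ) / β k := fun k =>
    div_nonneg (Nat.cast_nonneg _) (hk k).2.2.1.le
  have hcoup : ∀ k (R : ℕ), coupling (V k) R ≤
      8 * 450000000 ^ 2 * (N k / β k * R + (N k / β k * R) ^ 2) := by
    intro k R
    have h1 := (hCv k).inc_le R
    have h2 := hVle k R
    have h3 : coupling (V k) R = R * (R * inc (V k) R) := by
      unfold coupling inc
      ring
    rw [h3]
    have h4 := mul_le_mul_of_nonneg_left (h1.trans h2) (Nat.cast_nonneg (α := ℝ) R)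
    refine h4.trans (le_of_eq ?_)
    ring
  have hinc : ∀ k (R : ℕ), σ k ≤ inc (V k) R := fun k R => str_le (hCv k) (hσ k) R
  refine ⟨V, σ, fun k => ⟨hV k, (hCv k).mono, (hCv k).conc, hσ k, hσ0 k, hcoup k⟩,
    fun c hc => ⟨fun k hno => ?_, fun k r hr => ⟨hr.1.2.trans (hcoup k r), ?_⟩,
    fun κ r hκ hr => ?_⟩⟩
  · -- no scale
    have hlt : ∀ R : ℕ, 1 ≤ R → (R : ℝ) ^ 2 * (V k (R + 1) - V k R) < c := by
      by_contra hcon
      push Not at hcon
      have hne : ∃ R : ℕ, 1 ≤ R ∧ c ≤ coupling (V k) R := hcon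
      classical
      refine hno (Nat.find hne) ⟨Nat.find_spec hne, fun R hR => Nat.find_min' hne hR⟩
    refine ⟨?_, fun R R' hR hRR => ?_⟩
    · refine le_antisymm ?_ (hσ0 k)
      have h1 : Tendsto (fun R : ℕ => c * ((R : ℝ))⁻¹) atTop (𝓝 (c * 0)) :=
        (tendsto_inv_atTop_nhds_zero_nat (𝕜 := ℝ)).const_mul c
      rw [mul_zero] at h1
      refine ge_of_tendsto h1 ?_
      filter_upwards [eventually_ge_atTop 1] with R hR
      have hR1 : (1 : ℝ) ≤ R := by exact_mod_cast hR
      have h2 := hlt R hR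
      have h3 := hinc k R
      unfold inc at h3
      have h4 : (R : ℝ) ≤ (R : ℝ) ^ 2 := by nlinarith
      have h5 := (hCv k).inc_nn R
      unfold inc at h5
      have h6 := mul_le_mul_of_nonneg_right h4 h5
      rw [← div_eq_mul_inv, le_div_iff₀ (by linarith)]
      have h7 := mul_le_mul_of_nonneg_right h3 (by linarith : (0 : ℝ) ≤ R)
      linarith
    · have h1 := coul_bd hc.le hR hRR fun S hS _ => hlt S (by omega)
      refine h1.trans ?_
      have hR2 : (2 : ℝ) ≤ R := by exact_mod_cast hR
      have hR2' : (2 : ℝ) ≤ R' := by exact_mod_cast hR.trans hRR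
      have h2 : 0 ≤ 1 / ((R' : ℝ) - 1) := by
        have : (0 : ℝ) < (R' : ℝ) - 1 := by linarith
        positivity
      have h3 : c / ((R : ℝ) - 1) = c * (1 / ((R : ℝ) - 1)) := by ring
      rw [h3]
      exact mul_le_mul_of_nonneg_left (by linarith) hc.le
  · have hs := scale_som hr
    have h1 : (1 : ℝ) ≤ r := by exact_mod_cast hs.one_le
    rcases Nat.lt_or_ge r 2 with h2 | h2
    · have h3 : r = 1 := by have := hs.one_le; omega
      rw [h3]
      simp [hc.le]
    · have h3 := (hinc k r).trans (hs.inc_lt (hCv k) h2)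
      have h4 : (2 : ℝ) ≤ r := by exact_mod_cast h2
      have h5 : (0 : ℝ) < ((r : ℝ) - 1) ^ 2 := by
        have : (0 : ℝ) < (r : ℝ) - 1 := by linarith
        positivity
      rwa [le_div_iff₀ h5] at h3
  · -- the continuum limits
    have hrt : Tendsto r atTop atTop := by
      rw [tendsto_atTop]
      intro b
      have h1 : Tendsto (fun m => 8 * 450000000 ^ 2 * (N (κ m) / β (κ m) * (b : ℝ) +
          (N (κ m) / β (κ m) * (b : ℝ)) ^ 2)) atTop
          (𝓝 (8 * 450000000 ^ 2 * (0 * (b : ℝ) + (0 * (b : ℝ)) ^ 2))) := by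
        have h2 := (hlam.comp hκ.tendsto_atTop).mul_const (b : ℝ)
        exact (h2.add (h2.pow 2)).const_mul _
      simp only [zero_mul, ne_eq, OfNat.ofNat_ne_zero, not_false_eq_true, zero_pow, add_zero,
        mul_zero] at h1
      filter_upwards [h1.eventually (gt_mem_nhds hc)] with m hm
      by_contra hcon
      push Not at hcon
      have h2 := (hr m).1.2.trans (hcoup (κ m) (r m))
      have h3 : (r m : ℝ) ≤ b := by exact_mod_cast hcon.le
      have h4 := mul_le_mul_of_nonneg_left h3 (hlam0 (κ m))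
      have h5 := pow_le_pow_left₀ (mul_nonneg (hlam0 (κ m)) (Nat.cast_nonneg _)) h4 2
      linarith
    refine ⟨hrt, ?_⟩
    obtain ⟨φ, hφ, v, s, h1, h2, h3, h4, h5, h6, h7, h8, h9⟩ := compactness hc
      (V := fun m => V (κ m)) (fun m => hCv (κ m)) hrt (fun m => scale_som (hr m))
      (σ := fun m => σ (κ m)) (fun m => hσ0 (κ m)) (fun m R => hinc (κ m) R)
    refine ⟨φ, v, s, hφ, h1, ?_, h3, h4, h5, h6, h7, h8, h9⟩
    refine h2.congr fun m => ?_
    ring

end

end Pool.Agent.W2helper10.Old.PotentialContinuumLimit
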